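import Pool.Agent.Helper17.FP.Stmts

/-!
Module EXQ: few exceptional primes `q`.
-/

set_option autoImplicit false

open Finset

namespace Pool.Agent.Helper17.FP

open Pool.Agent.Helper17.SO Pool.Agent.Helper17.SV

open scoped NumberTheorySymbols

/-- the sum with the symbols inverted -/
noncomputable def exq_G (P : Finset ℕ) (τ : ℤ) (N : ℕ) : ℝ :=
  ∑ p ∈ P, (jacobiSym (τ * (N : ℤ)) p : ℝ) / p

theorem exq_recip (p q : ℕ) (hp : Odd p) (hq : Odd q) :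
    jacobiSym (p : ℤ) q = jacobiSym ((if q % 4 = 1 then 1 else -1) * (q : ℤ)) p := by
  by_cases h1 : q % 4 = 1
  · rw [if_pos h1, one_mul]
    exact jacobiSym.quadratic_reciprocity_one_mod_four' hp h1
  · rw [if_neg h1]
    have h3 : q % 4 = 3 := by
      rcases hq with ⟨k, hk⟩
      omega
    have h4 : (-1 : ℤ) * (q : ℤ) = -(q : ℤ) := by ring
    rw [h4, jacobiSym.neg _ hp]
    have hp4 : p % 4 = 1 ∨ p % 4 = 3 := by
      rcases hp with ⟨k, hk⟩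
      omega
    rcases hp4 with h5 | h5
    · rw [ZMod.χ₄_nat_one_mod_four h5, one_mul]
      exact jacobiSym.quadratic_reciprocity_one_mod_four h5 hq
    · rw [ZMod.χ₄_nat_three_mod_four h5]
      rw [jacobiSym.quadratic_reciprocity_three_mod_four h5 h3]
      ring

theorem exq_abs_le (a : ℤ) (b : ℕ) : |(jacobiSym a b : ℝ)| ≤ 1 := by
  rcases jacobiSym.trichotomy a b with h | h | h <;> rw [h] <;> norm_num

theorem exq_var (h1 : ST_PER) (Q z1 z : ℕ) (hz1 : 2 ≤ z1) (hz : z1 ≤ z) (τ : ℤ) :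
    ∑ N ∈ Ioc Q (2 * Q), (exq_G (PP z1 z) τ N) ^ 2 ≤ (Q : ℝ) / z1 + (z : ℝ) ^ 2 := by
  set P := PP z1 z with hP
  have hmem : ∀ p ∈ P, z1 < p ∧ p ≤ z ∧ p.Prime := by
    intro p hp
    rw [hP, PP, mem_filter, mem_Ioc] at hp
    exact ⟨hp.1.1, hp.1.2, hp.2⟩
  have hexp : ∀ N : ℕ, (exq_G P τ N) ^ 2 = ∑ p ∈ P, ∑ p' ∈ P,
      (jacobiSym (τ * (N : ℤ)) p : ℝ) / p * ((jacobiSym (τ * (N : ℤ)) p' : ℝ) / p') := by
    intro N
    rw [sq, exq_G, Finset.sum_mul_sum]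
  have hswap : ∑ N ∈ Ioc Q (2 * Q), (exq_G P τ N) ^ 2 = ∑ p ∈ P, ∑ p' ∈ P,
      ∑ N ∈ Ioc Q (2 * Q),
      (jacobiSym (τ * (N : ℤ)) p : ℝ) / p * ((jacobiSym (τ * (N : ℤ)) p' : ℝ) / p') := by
    rw [Finset.sum_congr rfl fun N _ => hexp N]
    rw [Finset.sum_comm]
    apply Finset.sum_congr rfl
    intro p _
    rw [Finset.sum_comm]
  have hterm : ∀ p ∈ P, ∀ p' ∈ P, ∑ N ∈ Ioc Q (2 * Q),
      (jacobiSym (τ * (N : ℤ)) p : ℝ) / p * ((jacobiSym (τ * (N : ℤ)) p' : ℝ) / p') ≤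
      (if p = p' then (Q : ℝ) * ((p : ℝ) ^ 2)⁻¹ else 0) + 1 := by
    intro p hp p' hp'
    obtain ⟨ha, hb, hc⟩ := hmem p hp
    obtain ⟨ha', hb', hc'⟩ := hmem p' hp'
    have hp0 : (0 : ℝ) < p := by exact_mod_cast hc.pos
    have hp0' : (0 : ℝ) < p' := by exact_mod_cast hc'.pos
    by_cases heq : p = p'
    · subst heq
      rw [if_pos rfl]
      have h2 : ∀ N ∈ Ioc Q (2 * Q),
          (jacobiSym (τ * (N : ℤ)) p : ℝ) / p * ((jacobiSym (τ * (N : ℤ)) p : ℝ) / p) ≤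
          ((p : ℝ) ^ 2)⁻¹ := by
        intro N _
        have h3 := exq_abs_le (τ * (N : ℤ)) p
        rw [abs_le] at h3
        have h4 : (jacobiSym (τ * (N : ℤ)) p : ℝ) * (jacobiSym (τ * (N : ℤ)) p : ℝ) ≤ 1 := by
          nlinarith [h3.1, h3.2]
        have h5 : (jacobiSym (τ * (N : ℤ)) p : ℝ) / p * ((jacobiSym (τ * (N : ℤ)) p : ℝ) / p) =
            (jacobiSym (τ * (N : ℤ)) p : ℝ) * (jacobiSym (τ * (N : ℤ)) p : ℝ) *
              ((p : ℝ) ^ 2)⁻¹ := by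
          field_simp
        rw [h5]
        have h6 : (0 : ℝ) ≤ ((p : ℝ) ^ 2)⁻¹ := by positivity
        nlinarith
      have h3 := Finset.sum_le_sum h2
      rw [Finset.sum_const, Nat.card_Ioc] at h3
      have h4 : 2 * Q - Q = Q := by omega
      rw [h4, nsmul_eq_mul] at h3
      linarith
    · rw [if_neg heq, zero_add]
      have h2 : ∀ N ∈ Ioc Q (2 * Q),
          (jacobiSym (τ * (N : ℤ)) p : ℝ) / p * ((jacobiSym (τ * (N : ℤ)) p' : ℝ) / p') =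
          (jacobiSym τ (p * p') : ℝ) / (p * p') * (jacobiSym (N : ℤ) (p * p') : ℝ) := by
        intro N _
        have : NeZero p := ⟨hc.ne_zero⟩
        have : NeZero p' := ⟨hc'.ne_zero⟩
        rw [jacobiSym.mul_right τ p p', jacobiSym.mul_right (N : ℤ) p p',
          jacobiSym.mul_left, jacobiSym.mul_left]
        push_cast
        field_simp
      rw [Finset.sum_congr rfl h2, ← Finset.mul_sum]
      have h3 := h1.1 p p' hc hc' (by omega) (by omega) heq Q (2 * Q)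
      have h4 : |∑ n ∈ Ioc Q (2 * Q), (jacobiSym (n : ℤ) (p * p') : ℝ)| ≤ (p : ℝ) * p' := by
        have h5 : ((|∑ n ∈ Ioc Q (2 * Q), jacobiSym (n : ℤ) (p * p')| : ℤ) : ℝ) ≤
            ((p * p' : ℕ) : ℝ) := by exact_mod_cast h3
        push_cast at h5
        exact h5
      have h5 := exq_abs_le τ (p * p')
      refine le_trans (le_abs_self _) ?_
      rw [abs_mul, abs_div]
      have h6 : |(p : ℝ) * p'| = p * p' := abs_of_pos (by positivity)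
      rw [h6, div_mul_eq_mul_div, div_le_one (by positivity)]
      calc |(jacobiSym τ (p * p') : ℝ)| * |∑ n ∈ Ioc Q (2 * Q), (jacobiSym (n : ℤ) (p * p') : ℝ)|
          ≤ 1 * ((p : ℝ) * p') := mul_le_mul h5 h4 (abs_nonneg _) (by norm_num)
        _ = (p : ℝ) * p' := one_mul _
  rw [hswap]
  have h2 : ∑ p ∈ P, ∑ p' ∈ P, ∑ N ∈ Ioc Q (2 * Q),
      (jacobiSym (τ * (N : ℤ)) p : ℝ) / p * ((jacobiSym (τ * (N : ℤ)) p' : ℝ) / p') ≤
      ∑ p ∈ P, ∑ p' ∈ P, ((if p = p' then (Q : ℝ) * ((p : ℝ) ^ 2)⁻¹ else 0) + 1) :=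
    Finset.sum_le_sum fun p hp => Finset.sum_le_sum fun p' hp' => hterm p hp p' hp'
  refine le_trans h2 ?_
  have h3 : ∑ p ∈ P, ∑ p' ∈ P, ((if p = p' then (Q : ℝ) * ((p : ℝ) ^ 2)⁻¹ else 0) + 1) =
      (Q : ℝ) * ∑ p ∈ P, ((p : ℝ) ^ 2)⁻¹ + (P.card : ℝ) * P.card := by
    rw [Finset.mul_sum]
    have h4 : ∀ p ∈ P, ∑ p' ∈ P, ((if p = p' then (Q : ℝ) * ((p : ℝ) ^ 2)⁻¹ else 0) + 1) =
        (Q : ℝ) * ((p : ℝ) ^ 2)⁻¹ + P.card := by
      intro p hp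
      rw [Finset.sum_add_distrib, Finset.sum_ite_eq, if_pos hp]
      simp
    rw [Finset.sum_congr rfl h4, Finset.sum_add_distrib]
    simp
  rw [h3]
  have h4 : ∑ p ∈ P, ((p : ℝ) ^ 2)⁻¹ ≤ (z1 : ℝ)⁻¹ := by
    have h5 : ∑ p ∈ P, ((p : ℝ) ^ 2)⁻¹ ≤ ∑ p ∈ Ioc z1 z, ((p : ℝ) ^ 2)⁻¹ := by
      apply Finset.sum_le_sum_of_subset_of_nonneg
      · intro p hp
        obtain ⟨ha, hb, hc⟩ := hmem p hp
        exact mem_Ioc.2 ⟨ha, hb⟩
      · intro p _ _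
        positivity
    have h6 := sum_Ioc_inv_sq_le_sub (α := ℝ) (k := z1) (n := z) (by omega) hz
    have h7 : (0 : ℝ) ≤ (z : ℝ)⁻¹ := by positivity
    linarith
  have h5 : (P.card : ℝ) ≤ z := by
    have h6 : P.card ≤ (Ioc z1 z).card := by
      apply Finset.card_le_card
      intro p hp
      obtain ⟨ha, hb, hc⟩ := hmem p hp
      exact mem_Ioc.2 ⟨ha, hb⟩
    rw [Nat.card_Ioc] at h6
    have h7 : P.card ≤ z := by omega
    exact_mod_cast h7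
  have h6 : (Q : ℝ) * ∑ p ∈ P, ((p : ℝ) ^ 2)⁻¹ ≤ (Q : ℝ) / z1 := by
    rw [div_eq_mul_inv]
    exact mul_le_mul_of_nonneg_left h4 (by positivity)
  have h7 : (P.card : ℝ) * P.card ≤ (z : ℝ) ^ 2 := by
    rw [sq]
    exact mul_le_mul h5 h5 (by positivity) (by positivity)
  linarith

theorem exq_count (h1 : ST_PER) (Q z1 z : ℕ) (hz1 : 2 ≤ z1) (hz : z1 ≤ z) (τ : ℤ) :
    (((Ioc Q (2 * Q)).filter (fun N => 1 < exq_G (PP z1 z) τ N)).card : ℝ) ≤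
      (Q : ℝ) / z1 + (z : ℝ) ^ 2 := by
  refine le_trans ?_ (exq_var h1 Q z1 z hz1 hz τ)
  have h2 : (((Ioc Q (2 * Q)).filter (fun N => 1 < exq_G (PP z1 z) τ N)).card : ℝ) =
      ∑ N ∈ (Ioc Q (2 * Q)).filter (fun N => 1 < exq_G (PP z1 z) τ N), (1 : ℝ) := by simp
  rw [h2]
  have h3 : ∑ N ∈ (Ioc Q (2 * Q)).filter (fun N => 1 < exq_G (PP z1 z) τ N), (1 : ℝ) ≤
      ∑ N ∈ (Ioc Q (2 * Q)).filter (fun N => 1 < exq_G (PP z1 z) τ N),
        (exq_G (PP z1 z) τ N) ^ 2 := by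
    apply Finset.sum_le_sum
    intro N hN
    rw [mem_filter] at hN
    nlinarith [hN.2]
  refine le_trans h3 ?_
  apply Finset.sum_le_sum_of_subset_of_nonneg
  · exact Finset.filter_subset _ _
  · intro N _ _
    positivity

theorem st_EXQ (h1 : ST_PER) : ST_EXQ := by
  intro Q z1 z hz1 hz hzQ S hS
  have hsub : S ⊆ (Ioc Q (2 * Q)).filter (fun N => 1 < exq_G (PP z1 z) 1 N) ∪
      (Ioc Q (2 * Q)).filter (fun N => 1 < exq_G (PP z1 z) (-1) N) := by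
    intro q hq
    obtain ⟨hq1, hq2⟩ := hS q hq
    rw [PP, mem_filter, mem_Ioc] at hq1
    obtain ⟨⟨hqa, hqb⟩, hqp⟩ := hq1
    have hqodd : Odd q := hqp.odd_of_ne_two (by omega)
    have h2 : ∑ p ∈ PP z1 z, (jacobiSym (p : ℤ) q : ℝ) / p =
        exq_G (PP z1 z) (if q % 4 = 1 then 1 else -1) q := by
      rw [exq_G]
      apply Finset.sum_congr rfl
      intro p hp
      rw [PP, mem_filter, mem_Ioc] at hp
      rw [exq_recip p q (hp.2.odd_of_ne_two (by omega)) hqodd]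
    rw [h2] at hq2
    rw [mem_union, mem_filter, mem_filter, mem_Ioc]
    by_cases h3 : q % 4 = 1
    · rw [if_pos h3] at hq2
      exact Or.inl ⟨⟨hqa, hqb⟩, hq2⟩
    · rw [if_neg h3] at hq2
      exact Or.inr ⟨⟨hqa, hqb⟩, hq2⟩
  have h2 : S.card ≤ ((Ioc Q (2 * Q)).filter (fun N => 1 < exq_G (PP z1 z) 1 N)).card +
      ((Ioc Q (2 * Q)).filter (fun N => 1 < exq_G (PP z1 z) (-1) N)).card :=
    le_trans (Finset.card_le_card hsub) (Finset.card_union_le _ _)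
  have h3 := exq_count h1 Q z1 z hz1 hz 1
  have h4 := exq_count h1 Q z1 z hz1 hz (-1)
  have h5 : (S.card : ℝ) ≤ (((Ioc Q (2 * Q)).filter
      (fun N => 1 < exq_G (PP z1 z) 1 N)).card : ℝ) +
      (((Ioc Q (2 * Q)).filter (fun N => 1 < exq_G (PP z1 z) (-1) N)).card : ℝ) := by
    exact_mod_cast h2
  linarith

end Pool.Agent.Helper17.FP
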